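import Pool.Agent.helper54.GR3.Spec

/-!
Module WS5 of project g3: (MP_af9036_an): weighted sums over disjoint discs inside a disc.
-/

set_option autoImplicit false

open Complex Metric Set Filter Topology MeasureTheory
open MPS (om)
open PPS (pre TT fd)
open XPS (Df er dens tau)
open Pool.Agent.helper16.Multibrot

noncomputable section

namespace GR

theorem WS5_ind (hARE : ARE_stmt) (ι : Type) (z : ι → ℂ) (r : ι → ℝ) (a : ℂ) (M : ℕ) :
    ∀ (s : Finset ι) (d : ℝ), 0 < d → (∀ j ∈ s, 0 < r j) →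
      (∀ i ∈ s, ∀ j ∈ s, i ≠ j → r i + r j ≤ ‖z i - z j‖) → (∀ j ∈ s, r j ≤ ‖z j - a‖ / 2) →
      (∀ j ∈ s, ‖z j - a‖ < d) → (∀ j ∈ s, d * (1 / 2) ^ M ≤ ‖z j - a‖) →
      ∑ j ∈ s, r j ^ 2 / ‖z j - a‖ ≤ 9 * d := by
  classical
  induction M with
  | zero =>
    intro s d hd _ _ _ h1 h2
    have hs : s = ∅ := by
      rw [Finset.eq_empty_iff_forall_notMem]
      intro j hj
      have h3 := h2 j hj
      rw [pow_zero, mul_one] at h3
      exact absurd (h1 j hj) (not_lt.2 h3)
    rw [hs, Finset.sum_empty]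
    positivity
  | succ M ih =>
    intro s d hd hr hsep hr2 h1 h2
    rw [← Finset.sum_filter_add_sum_filter_not s (fun j => ‖z j - a‖ < d / 2)]
    have hA : ∑ j ∈ s.filter (fun j => ‖z j - a‖ < d / 2), r j ^ 2 / ‖z j - a‖ ≤ 9 * (d / 2) := by
      refine ih _ (d / 2) (by positivity) ?_ ?_ ?_ ?_ ?_
      · intro j hj
        exact hr j (Finset.mem_of_mem_filter j hj)
      · intro i hi j hj hij
        exact hsep i (Finset.mem_of_mem_filter i hi) j (Finset.mem_of_mem_filter j hj) hij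
      · intro j hj
        exact hr2 j (Finset.mem_of_mem_filter j hj)
      · intro j hj
        exact (Finset.mem_filter.1 hj).2
      · intro j hj
        have h3 := h2 j (Finset.mem_of_mem_filter j hj)
        have e : d / 2 * (1 / 2) ^ M = d * (1 / 2) ^ (M + 1) := by ring
        rw [e]
        exact h3
    have hB : ∑ j ∈ s.filter (fun j => ¬ ‖z j - a‖ < d / 2), r j ^ 2 / ‖z j - a‖ ≤ 9 * (d / 2) := by
      have hP := hARE ι (s.filter (fun j => ¬ ‖z j - a‖ < d / 2)) z r a (3 / 2 * d)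
        (fun j hj => hr j (Finset.mem_of_mem_filter j hj))
        (fun i hi j hj hij => hsep i (Finset.mem_of_mem_filter i hi) j
          (Finset.mem_of_mem_filter j hj) hij)
        (fun j hj => by
          have h3 := hr2 j (Finset.mem_of_mem_filter j hj)
          have h4 := h1 j (Finset.mem_of_mem_filter j hj)
          linarith)
      have hle : ∑ j ∈ s.filter (fun j => ¬ ‖z j - a‖ < d / 2), r j ^ 2 / ‖z j - a‖ ≤
          ∑ j ∈ s.filter (fun j => ¬ ‖z j - a‖ < d / 2), r j ^ 2 * (2 / d) := by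
        apply Finset.sum_le_sum
        intro j hj
        have h3 : d / 2 ≤ ‖z j - a‖ := not_lt.1 (Finset.mem_filter.1 hj).2
        rw [div_eq_mul_inv]
        apply mul_le_mul_of_nonneg_left _ (sq_nonneg _)
        have h4 : ‖z j - a‖⁻¹ ≤ (d / 2)⁻¹ := inv_anti₀ (by positivity) h3
        rw [inv_div] at h4
        exact h4
      refine hle.trans ?_
      rw [← Finset.sum_mul]
      calc (∑ j ∈ s.filter (fun j => ¬ ‖z j - a‖ < d / 2), r j ^ 2) * (2 / d)
          ≤ (3 / 2 * d) ^ 2 * (2 / d) := mul_le_mul_of_nonneg_right hP (by positivity)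
        _ = 9 * (d / 2) := by
          field_simp
          ring
    linarith

theorem WS5 (hARE : ARE_stmt) : WS5_stmt := by
  intro ι s z r a d hd hr hsep hr2 h1
  have hpos : ∀ j ∈ s, 0 < ‖z j - a‖ := by
    intro j hj
    have h2 := hr j hj
    have h3 := hr2 j hj
    linarith
  have htend : Tendsto (fun M : ℕ => d * (1 / 2 : ℝ) ^ M) atTop (𝓝 (d * 0)) :=
    (tendsto_pow_atTop_nhds_zero_of_lt_one (by norm_num) (by norm_num)).const_mul d
  rw [mul_zero] at htend
  have hev : ∀ᶠ M : ℕ in atTop, ∀ j ∈ s, d * (1 / 2 : ℝ) ^ M ≤ ‖z j - a‖ := by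
    rw [Filter.eventually_all_finset]
    intro j hj
    exact (htend.eventually (Iio_mem_nhds (hpos j hj))).mono fun M hM => le_of_lt hM
  obtain ⟨M, hM⟩ := hev.exists
  exact WS5_ind hARE ι z r a M s d hd hr hsep hr2 h1 hM

end GR
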